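import Pool.Agent.H88.PA.Defs

/-!
# Closed sets and closed subgroups of `GL_n`
-/

set_option autoImplicit false

open Matrix

namespace Pool.Agent.H88.PA

variable {n : ℕ}

/-- The value of a polynomial at the entries of a matrix. -/
noncomputable def ev (g : GL (Fin n) ℂ) : MvPolynomial (Fin n × Fin n) ℂ →+* ℂ :=
  MvPolynomial.eval (fun q => g q.1 q.2)

theorem closed_iff {S : Set (GL (Fin n) ℂ)} :
    Closed S ↔ ∃ P : Set (MvPolynomial (Fin n × Fin n) ℂ), ∀ g, g ∈ S ↔ ∀ f ∈ P, ev g f = 0 :=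
  Iff.rfl

theorem Closed.union {S T : Set (GL (Fin n) ℂ)} (hS : Closed S) (hT : Closed T) :
    Closed (S ∪ T) := by
  obtain ⟨P, hP⟩ := closed_iff.1 hS
  obtain ⟨Q, hQ⟩ := closed_iff.1 hT
  refine closed_iff.2 ⟨{h | ∃ f ∈ P, ∃ g ∈ Q, h = f * g}, fun x => ⟨?_, fun h => ?_⟩⟩
  · rintro (h | h) _ ⟨f, hf, g, hg, rfl⟩
    · rw [map_mul, (hP x).1 h f hf, zero_mul]
    · rw [map_mul, (hQ x).1 h g hg, mul_zero]
  · by_contra hn
    rw [Set.mem_union, not_or, hP, hQ] at hn
    push Not at hn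
    obtain ⟨⟨f, hf, hf0⟩, g, hg, hg0⟩ := hn
    have h1 := h (f * g) ⟨f, hf, g, hg, rfl⟩
    rw [map_mul] at h1
    exact mul_ne_zero hf0 hg0 h1

theorem closed_empty : Closed (∅ : Set (GL (Fin n) ℂ)) := by
  refine closed_iff.2 ⟨{1}, fun x => ⟨fun h => absurd h (Set.notMem_empty x), fun h => ?_⟩⟩
  have h1 := h 1 rfl
  rw [map_one] at h1
  exact absurd h1 one_ne_zero

theorem closed_biUnion {ι : Type} (T : Finset ι) (F : ι → Set (GL (Fin n) ℂ))
    (h : ∀ t ∈ T, Closed (F t)) : Closed (⋃ t ∈ T, F t) := by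
  classical
  induction T using Finset.induction_on with
  | empty => simpa using closed_empty
  | insert a s ha ih =>
    rw [Finset.set_biUnion_insert]
    exact (h a (Finset.mem_insert_self a s)).union
      (ih fun t ht => h t (Finset.mem_insert_of_mem ht))

theorem closed_iInter {ι : Type} (F : ι → Set (GL (Fin n) ℂ)) (h : ∀ t, Closed (F t)) :
    Closed (⋂ t, F t) := by
  choose P hP using fun t => closed_iff.1 (h t)
  refine closed_iff.2 ⟨⋃ t, P t, fun x => ?_⟩
  rw [Set.mem_iInter]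
  constructor
  · intro hx f hf
    obtain ⟨t, ht⟩ := Set.mem_iUnion.1 hf
    exact (hP t x).1 (hx t) f ht
  · intro hx t
    exact (hP t x).2 fun f hf => hx f (Set.mem_iUnion.2 ⟨t, hf⟩)

/-- Preimages under two-sided translations are closed. -/
theorem Closed.translate {S : Set (GL (Fin n) ℂ)} (hS : Closed S) (a b : GL (Fin n) ℂ) :
    Closed {x | a * x * b ∈ S} := by
  obtain ⟨P, hP⟩ := closed_iff.1 hS
  let φ : Fin n × Fin n → MvPolynomial (Fin n × Fin n) ℂ := fun q =>
    ∑ k, ∑ l, MvPolynomial.C (a q.1 k) * MvPolynomial.X (k, l) * MvPolynomial.C (b l q.2)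
  have key : ∀ (x : GL (Fin n) ℂ) f, ev x (MvPolynomial.bind₁ φ f) = ev (a * x * b) f := by
    intro x f
    unfold ev
    have h1 : ∀ q : Fin n × Fin n, MvPolynomial.eval (fun q => x q.1 q.2) (φ q) =
        (a * x * b) q.1 q.2 := by
      intro q
      simp only [φ, map_sum, map_mul, MvPolynomial.eval_C, MvPolynomial.eval_X]
      rw [Units.val_mul, Units.val_mul, Matrix.mul_apply]
      simp only [Matrix.mul_apply, Finset.sum_mul]
      exact Finset.sum_comm
    have h2 := MvPolynomial.eval₂Hom_bind₁ (RingHom.id ℂ) (fun q : Fin n × Fin n => x q.1 q.2) φ f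
    have h3 : ∀ q : Fin n × Fin n, MvPolynomial.eval₂Hom (RingHom.id ℂ)
        (fun q : Fin n × Fin n => x q.1 q.2) (φ q) = (a * x * b) q.1 q.2 := h1
    simp only [h3] at h2
    exact h2
  refine closed_iff.2 ⟨MvPolynomial.bind₁ φ '' P, fun x => ?_⟩
  rw [Set.mem_ofPred_eq, hP, Set.forall_mem_image]
  simp only [key]

theorem closed_linear (c : Fin n × Fin n → ℂ) :
    Closed {x : GL (Fin n) ℂ | ∑ q, c q * x q.1 q.2 = 0} := by
  refine closed_iff.2 ⟨{∑ q, MvPolynomial.C (c q) * MvPolynomial.X q}, fun x => ?_⟩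
  rw [Set.mem_ofPred_eq]
  simp [ev, map_sum]

theorem closed_line (v : Fin n → ℂ) :
    Closed {x : GL (Fin n) ℂ | ∃ c : ℂ, (x : Matrix (Fin n) (Fin n) ℂ) *ᵥ v = c • v} := by
  have h1 : {x : GL (Fin n) ℂ | ∃ c : ℂ, (x : Matrix (Fin n) (Fin n) ℂ) *ᵥ v = c • v} =
      ⋂ p : Fin n × Fin n, {x : GL (Fin n) ℂ | ∑ q : Fin n × Fin n,
        ((if q.1 = p.1 then v q.2 * v p.2 else 0) - (if q.1 = p.2 then v q.2 * v p.1 else 0)) *
          x q.1 q.2 = 0} := by
    ext x
    rw [Set.mem_ofPred_eq, Set.mem_iInter]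
    have hs : ∀ p : Fin n × Fin n, ∑ q : Fin n × Fin n,
        ((if q.1 = p.1 then v q.2 * v p.2 else 0) - (if q.1 = p.2 then v q.2 * v p.1 else 0)) *
          x q.1 q.2 = ((x : Matrix (Fin n) (Fin n) ℂ) *ᵥ v) p.1 * v p.2 -
            ((x : Matrix (Fin n) (Fin n) ℂ) *ᵥ v) p.2 * v p.1 := by
      intro p
      rw [Fintype.sum_prod_type]
      simp only [sub_mul, Finset.sum_sub_distrib, ite_mul, zero_mul]
      congr 1
      · rw [Finset.sum_eq_single p.1]
        · simp only [if_true, Matrix.mulVec, dotProduct, Finset.sum_mul]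
          exact Finset.sum_congr rfl fun j _ => by ring
        · intro i _ hi
          simp [hi]
        · intro h
          exact absurd (Finset.mem_univ _) h
      · rw [Finset.sum_eq_single p.2]
        · simp only [if_true, Matrix.mulVec, dotProduct, Finset.sum_mul]
          exact Finset.sum_congr rfl fun j _ => by ring
        · intro i _ hi
          simp [hi]
        · intro h
          exact absurd (Finset.mem_univ _) h
    simp only [Set.mem_ofPred_eq, hs]
    constructor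
    · rintro ⟨c, hc⟩ p
      rw [hc, Pi.smul_apply, Pi.smul_apply, smul_eq_mul, smul_eq_mul]
      ring
    · intro h
      by_cases hv : v = 0
      · exact ⟨0, by rw [hv, Matrix.mulVec_zero, smul_zero]⟩
      · obtain ⟨i, hi⟩ := Function.ne_iff.1 hv
        rw [Pi.zero_apply] at hi
        refine ⟨((x : Matrix (Fin n) (Fin n) ℂ) *ᵥ v) i / v i, ?_⟩
        funext j
        rw [Pi.smul_apply, smul_eq_mul]
        have h2 := h (j, i)
        simp only at h2
        field_simp
        linear_combination h2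
  rw [h1]
  exact closed_iInter _ fun p => closed_linear _

theorem closed_stab (W : Submodule ℂ (Fin n → ℂ)) :
    Closed {x : GL (Fin n) ℂ | ∀ v ∈ W, (x : Matrix (Fin n) (Fin n) ℂ) *ᵥ v ∈ W} := by
  have h1 : {x : GL (Fin n) ℂ | ∀ v ∈ W, (x : Matrix (Fin n) (Fin n) ℂ) *ᵥ v ∈ W} =
      ⋂ p : W × {f : Module.Dual ℂ (Fin n → ℂ) // W ≤ LinearMap.ker f},
        {x : GL (Fin n) ℂ | ∑ q : Fin n × Fin n,
          (p.2.1 (Pi.single q.1 1) * (p.1 : Fin n → ℂ) q.2) * x q.1 q.2 = 0} := by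
    ext x
    rw [Set.mem_ofPred_eq, Set.mem_iInter]
    have hs : ∀ (v : Fin n → ℂ) (f : Module.Dual ℂ (Fin n → ℂ)), ∑ q : Fin n × Fin n,
        (f (Pi.single q.1 1) * v q.2) * x q.1 q.2 =
          f ((x : Matrix (Fin n) (Fin n) ℂ) *ᵥ v) := by
      intro v f
      have h2 : (x : Matrix (Fin n) (Fin n) ℂ) *ᵥ v =
          ∑ i, ((x : Matrix (Fin n) (Fin n) ℂ) *ᵥ v) i • (Pi.single i 1 : Fin n → ℂ) := by
        funext j
        simp [Finset.sum_apply, Pi.single_apply]
      rw [h2, map_sum, Fintype.sum_prod_type]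
      refine Finset.sum_congr rfl fun i _ => ?_
      rw [map_smul, smul_eq_mul]
      simp only [Matrix.mulVec, dotProduct, Finset.sum_mul]
      exact Finset.sum_congr rfl fun j _ => by ring
    simp only [Set.mem_ofPred_eq, hs]
    constructor
    · intro h p
      exact p.2.2 (h _ p.1.2)
    · intro h v hv
      by_contra hn
      obtain ⟨f, hf, hf0⟩ := Submodule.exists_le_ker_of_notMem hn
      exact hf (h (⟨v, hv⟩, ⟨f, hf0⟩))
  rw [h1]
  exact closed_iInter _ fun p => closed_linear _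

/-- The ideal of the polynomials which vanish on a set. -/
noncomputable def van (S : Set (GL (Fin n) ℂ)) : Ideal (MvPolynomial (Fin n × Fin n) ℂ) where
  carrier := {f | ∀ g ∈ S, ev g f = 0}
  zero_mem' := fun g _ => map_zero _
  add_mem' := fun {a b} ha hb g hg => by rw [map_add, ha g hg, hb g hg, add_zero]
  smul_mem' := fun c f hf g hg => by rw [smul_eq_mul, map_mul, hf g hg, mul_zero]

theorem mem_van {S : Set (GL (Fin n) ℂ)} {f : MvPolynomial (Fin n × Fin n) ℂ} :
    f ∈ van S ↔ ∀ g ∈ S, ev g f = 0 := Iff.rfl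

theorem van_lt {S T : Set (GL (Fin n) ℂ)} (hS : Closed S) (h : S ⊂ T) : van T < van S := by
  refine lt_of_le_of_ne (fun f hf g hg => hf g (h.1 hg)) fun he => h.2 fun g hg => ?_
  obtain ⟨P, hP⟩ := closed_iff.1 hS
  refine (hP g).2 fun f hf => ?_
  have h1 : f ∈ van S := fun x hx => (hP x).1 hx f hf
  rw [← he] at h1
  exact h1 g hg

/-- Induction over the closed sets. -/
theorem closed_induction {p : Set (GL (Fin n) ℂ) → Prop}
    (h : ∀ S, Closed S → (∀ T, Closed T → T ⊂ S → p T) → p S) : ∀ S, Closed S → p S := by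
  have hwf : WellFounded (fun I J : Ideal (MvPolynomial (Fin n × Fin n) ℂ) => J < I) :=
    wellFounded_gt
  intro S hS
  induction hI : van S using hwf.induction generalizing S with
  | _ I ih =>
    refine h S hS fun T hT hTS => ih (van T) ?_ T hT rfl
    rw [← hI]
    exact van_lt hT hTS

/-- The Zariski closure. -/
def zcl (S : Set (GL (Fin n) ℂ)) : Set (GL (Fin n) ℂ) := {g | ∀ f ∈ van S, ev g f = 0}

theorem closed_zcl (S : Set (GL (Fin n) ℂ)) : Closed (zcl S) :=
  closed_iff.2 ⟨van S, fun _ => Iff.rfl⟩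

theorem subset_zcl (S : Set (GL (Fin n) ℂ)) : S ⊆ zcl S := fun _ hg _ hf => hf _ hg

theorem zcl_subset {S T : Set (GL (Fin n) ℂ)} (hT : Closed T) (h : S ⊆ T) : zcl S ⊆ T := by
  obtain ⟨P, hP⟩ := closed_iff.1 hT
  intro g hg
  exact (hP g).2 fun f hf => hg f fun x hx => (hP x).1 (h hx) f hf

theorem zcl_mul (S : Subgroup (GL (Fin n) ℂ)) {a b : GL (Fin n) ℂ} (ha : a ∈ zcl (S : Set _))
    (hb : b ∈ zcl (S : Set _)) : a * b ∈ zcl (S : Set _) := by
  have h1 : ∀ s ∈ S, zcl (S : Set (GL (Fin n) ℂ)) ⊆ {x | s * x * 1 ∈ zcl (S : Set _)} := by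
    intro s hs
    refine zcl_subset ((closed_zcl _).translate s 1) fun x hx => ?_
    rw [Set.mem_ofPred_eq, mul_one]
    exact subset_zcl _ (S.mul_mem hs hx)
  have h2 : zcl (S : Set (GL (Fin n) ℂ)) ⊆ {x | 1 * x * b ∈ zcl (S : Set _)} := by
    refine zcl_subset ((closed_zcl _).translate 1 b) fun x hx => ?_
    rw [Set.mem_ofPred_eq, one_mul]
    have h3 := h1 x hx hb
    rwa [Set.mem_ofPred_eq, mul_one] at h3
  have h3 := h2 ha
  rwa [Set.mem_ofPred_eq, one_mul] at h3

theorem zcl_pow (S : Subgroup (GL (Fin n) ℂ)) {a : GL (Fin n) ℂ} (ha : a ∈ zcl (S : Set _))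
    (k : ℕ) : a ^ k ∈ zcl (S : Set _) := by
  induction k with
  | zero => rw [pow_zero]; exact subset_zcl _ S.one_mem
  | succ k ih => rw [pow_succ]; exact zcl_mul S ih ha

theorem zcl_inv (S : Subgroup (GL (Fin n) ℂ)) {a : GL (Fin n) ℂ} (ha : a ∈ zcl (S : Set _)) :
    a⁻¹ ∈ zcl (S : Set _) := by
  by_contra hn
  let C : ℕ → Set (GL (Fin n) ℂ) := fun k => {x | (a ^ k)⁻¹ * x * 1 ∈ zcl (S : Set _)}
  have hC : ∀ k, Closed (C k) := fun k => (closed_zcl _).translate _ 1
  have hmono : ∀ k, C (k + 1) ⊂ C k := by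
    intro k
    refine ⟨fun x hx => ?_, fun h => ?_⟩
    · have h1 := zcl_mul S ha hx
      show (a ^ k)⁻¹ * x * 1 ∈ zcl (S : Set _)
      have h2 : a * ((a ^ (k + 1))⁻¹ * x * 1) = (a ^ k)⁻¹ * x * 1 := by
        rw [pow_succ]
        group
      rwa [h2] at h1
    · have h1 : a ^ k ∈ C k := by
        show (a ^ k)⁻¹ * a ^ k * 1 ∈ zcl (S : Set _)
        rw [inv_mul_cancel, mul_one]
        exact subset_zcl _ S.one_mem
      have h2 : (a ^ (k + 1))⁻¹ * a ^ k * 1 ∈ zcl (S : Set _) := h h1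
      have h3 : (a ^ (k + 1))⁻¹ * a ^ k * 1 = a⁻¹ := by
        rw [pow_succ]
        group
      rw [h3] at h2
      exact hn h2
  have key : ∀ S' : Set (GL (Fin n) ℂ), Closed S' → ∀ k, S' ≠ C k := by
    refine closed_induction fun S' hS' ih k hk => ?_
    subst hk
    exact ih (C (k + 1)) (hC _) (hmono k) (k + 1) rfl
  exact key (C 0) (hC 0) 0 rfl

/-- The Zariski closure of a group which acts semisimply. -/
def hull (S : Subgroup (GL (Fin n) ℂ)) (hS : Semi S) : Red n where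
  pts :=
    { carrier := zcl (S : Set _)
      one_mem' := subset_zcl _ S.one_mem
      mul_mem' := fun ha hb => zcl_mul S ha hb
      inv_mem' := fun ha => zcl_inv S ha }
  closed := closed_zcl _
  semi := by
    intro U hU
    obtain ⟨W, hW, hc⟩ := hS U fun g hg => hU g (subset_zcl _ hg)
    exact ⟨W, fun g hg => zcl_subset (closed_stab W) (fun x hx => hW x hx) hg, hc⟩

theorem le_hull (S : Subgroup (GL (Fin n) ℂ)) (hS : Semi S) : S ≤ (hull S hS).pts :=
  subset_zcl _

theorem hull_le (S : Subgroup (GL (Fin n) ℂ)) (hS : Semi S) (G : Red n) (h : S ≤ G.pts) :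
    (hull S hS).pts ≤ G.pts := zcl_subset G.closed h

end Pool.Agent.H88.PA
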