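import Pool.Agent.H88.PW.Defs

/-!
# `P = W` and representations with virtually abelian image: definitions
-/

set_option autoImplicit false

open Matrix

namespace Pool.Agent.H88.PA

open Pool.Agent.H88.PW

/-- The subspace `U` of `ℂⁿ` is invariant under the group `S` of matrices. -/
def Inv {n : ℕ} (S : Subgroup (GL (Fin n) ℂ)) (U : Submodule ℂ (Fin n → ℂ)) : Prop :=
  ∀ g ∈ S, ∀ v ∈ U, (g : Matrix (Fin n) (Fin n) ℂ) *ᵥ v ∈ U

/-- `S` acts semisimply on `ℂⁿ`: every invariant subspace has an invariant complement. -/
def Semi {n : ℕ} (S : Subgroup (GL (Fin n) ℂ)) : Prop :=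
  ∀ U, Inv S U → ∃ W, Inv S W ∧ IsCompl U W

/-- The set of matrices `S` is closed in `GL_n`: it is defined by polynomial equations in the
entries. -/
def Closed {n : ℕ} (S : Set (GL (Fin n) ℂ)) : Prop :=
  ∃ P : Set (MvPolynomial (Fin n × Fin n) ℂ), ∀ g : GL (Fin n) ℂ,
    g ∈ S ↔ ∀ f ∈ P, MvPolynomial.eval (fun q => g q.1 q.2) f = 0

/-- A reductive group (not necessarily connected): a closed subgroup of `GL_n(ℂ)` which acts
semisimply on `ℂⁿ`. -/
structure Red (n : ℕ) where
  /-- the complex points -/
  pts : Subgroup (GL (Fin n) ℂ)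
  closed : Closed (pts : Set (GL (Fin n) ℂ))
  semi : Semi pts

/-- The matrices in `D` are diagonal in a common basis. -/
def Diagonal {n : ℕ} (D : Subgroup (GL (Fin n) ℂ)) : Prop :=
  ∃ b : Module.Basis (Fin n) ℂ (Fin n → ℂ), ∀ g ∈ D, ∀ i, ∃ c : ℂ,
    (g : Matrix (Fin n) (Fin n) ℂ) *ᵥ b i = c • b i

/-- `N` has a diagonalizable subgroup of finite index; for a closed `N` this means that the
identity component of `N` is a torus. -/
def TorusByFinite {n : ℕ} (N : Subgroup (GL (Fin n) ℂ)) : Prop :=
  ∃ D ≤ N, Diagonal D ∧ D.relIndex N ≠ 0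

/-- `H` is conjugate to `N` by an element of `G`. -/
def ConjIn {n : ℕ} (G H N : Subgroup (GL (Fin n) ℂ)) : Prop :=
  ∃ g ∈ G, H.map (MulAut.conj g).toMonoidHom = N

/-- The rational cohomology of the torus `(ℂˣ)^d`, with the basis `dlog z_S`, `S ⊆ {1, …, d}`.
The class `dlog z_S` has degree `|S|`, weight `2 |S|` and perversity `|S|`. -/
def toric (d : ℕ) : Bif where
  V := Finset (Fin d) → ℚ
  W k :=
    { carrier := {f | ∀ S, f S ≠ 0 → 2 * (S.card : ℤ) ≤ k}
      zero_mem' := fun S h => absurd rfl h
      add_mem' := fun {f g} hf hg S h => by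
        by_cases h1 : f S = 0
        · refine hg S fun h2 => h ?_
          rw [Pi.add_apply, h1, h2, add_zero]
        · exact hf S h1
      smul_mem' := fun c f hf S h => hf S fun h1 => h (by rw [Pi.smul_apply, h1, smul_zero]) }
  P k :=
    { carrier := {f | ∀ S, f S ≠ 0 → (S.card : ℤ) ≤ k}
      zero_mem' := fun S h => absurd rfl h
      add_mem' := fun {f g} hf hg S h => by
        by_cases h1 : f S = 0
        · refine hg S fun h2 => h ?_
          rw [Pi.add_apply, h1, h2, add_zero]
        · exact hf S h1
      smul_mem' := fun c f hf S h => hf S fun h1 => h (by rw [Pi.smul_apply, h1, smul_zero]) }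
  monoW := fun _ _ hk _ hf S h => (hf S h).trans hk
  monoP := fun _ _ hk _ hf S h => (hf S h).trans hk
  negW := by
    rw [eq_bot_iff]
    intro f hf
    rw [Submodule.mem_bot]
    funext S
    by_contra h
    have h1 := hf S h
    omega
  negP := by
    rw [eq_bot_iff]
    intro f hf
    rw [Submodule.mem_bot]
    funext S
    by_contra h
    have h1 := hf S h
    omega
  one := Pi.single ∅ 1
  one_ne := fun h => by
    have h1 := congrFun h ∅
    rw [Pi.single_eq_same] at h1
    exact one_ne_zero h1
  oneW := by
    intro S h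
    by_cases h1 : S = ∅
    · rw [h1]
      simp
    · exact absurd (Pi.single_eq_of_ne h1 _) h
  oneP := by
    intro S h
    by_cases h1 : S = ∅
    · rw [h1]
      simp
    · exact absurd (Pi.single_eq_of_ne h1 _) h

/-- The moduli spaces of the representations of the fundamental groups of smooth complex projective
varieties, and of the corresponding Higgs bundles. -/
structure Theory where
  /-- the connected smooth projective varieties -/
  Var : Type
  /-- the fundamental group -/
  grp : Var → Type
  [isGrp : ∀ X, Group (grp X)]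
  /-- the irreducible components of the moduli space of `X` and `G` -/
  Comp : Var → {n : ℕ} → Red n → Type
  /-- the intersection cohomology of a component, with the weight filtration and the perverse
  filtration -/
  coh : {X : Var} → {n : ℕ} → {G : Red n} → Comp X G → Bif
  /-- the class of the representation is a point of the component -/
  On : {X : Var} → {n : ℕ} → {G : Red n} → Comp X G → (grp X →* GL (Fin n) ℂ) → Prop
  /-- the points of the moduli space are the semisimple representations in `G` -/
  semi : ∀ {X : Var} {n : ℕ} {G : Red n} (Y : Comp X G) (ρ : grp X →* GL (Fin n) ℂ), On Y ρ →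
    (∀ γ, ρ γ ∈ G.pts) ∧ Semi ρ.range
  /-- a reductive group has only countably many conjugacy classes of reductive subgroups -/
  countable : ∀ {n : ℕ} (G : Red n), ∃ N : ℕ → Red n, (∀ i, (N i).pts ≤ G.pts) ∧
    ∀ H : Red n, H.pts ≤ G.pts → ∃ i, ConjIn G.pts H.pts (N i).pts
  /-- `M(X, N) → M(X, G)` is finite for `N ⊆ G`, an irreducible variety is not a union of countably
  many proper closed subsets, and the intersection cohomology of the image of a finite morphism is
  a direct summand of the one of the source -/
  dominated : ∀ {X : Var} {n : ℕ} {G : Red n} (Y : Comp X G) (ι : Type) [Countable ι]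
    (N : ι → Red n), (∀ i, (N i).pts ≤ G.pts) →
    (∀ ρ, On Y ρ → ∃ i, ∃ g ∈ G.pts, ∀ γ, g * ρ γ * g⁻¹ ∈ (N i).pts) →
    ∃ i, ∃ Y' : Comp X (N i), (coh Y).IsSummand (coh Y')
  /-- if the identity component of `N` is a torus, the components for `X` and `N` are quotients of
  tori by finite groups -/
  torus : ∀ {X : Var} {n : ℕ} {N : Red n}, TorusByFinite N.pts → ∀ Y : Comp X N,
    ∃ d, (coh Y).IsSummand (toric d)

attribute [instance] Theory.isGrp

end Pool.Agent.H88.PA
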