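import Pool.Agent.H88.PA.Cl

/-!
# Common eigenvectors of a normal abelian subgroup
-/

set_option autoImplicit false

open Matrix

namespace Pool.Agent.H88.PA

variable {n : ℕ}

/-- The common eigenvectors of the elements of `A` (and zero). -/
def eigen (A : Subgroup (GL (Fin n) ℂ)) : Set (Fin n → ℂ) :=
  {v | ∀ a ∈ A, ∃ c : ℂ, (a : Matrix (Fin n) (Fin n) ℂ) *ᵥ v = c • v}

theorem inv_mulVec (g : GL (Fin n) ℂ) (v : Fin n → ℂ) :
    ((g⁻¹ : GL (Fin n) ℂ) : Matrix (Fin n) (Fin n) ℂ) *ᵥ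
      ((g : Matrix (Fin n) (Fin n) ℂ) *ᵥ v) = v := by
  rw [Matrix.mulVec_mulVec, ← Units.val_mul, inv_mul_cancel, Units.val_one, Matrix.one_mulVec]

theorem mulVec_inv (g : GL (Fin n) ℂ) (v : Fin n → ℂ) :
    (g : Matrix (Fin n) (Fin n) ℂ) *ᵥ
      (((g⁻¹ : GL (Fin n) ℂ) : Matrix (Fin n) (Fin n) ℂ) *ᵥ v) = v := by
  rw [Matrix.mulVec_mulVec, ← Units.val_mul, mul_inv_cancel, Units.val_one, Matrix.one_mulVec]

/-- A nonzero subspace which is invariant under an abelian group contains a common eigenvector. -/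
theorem exists_eigen {A : Subgroup (GL (Fin n) ℂ)} (hA : ∀ a ∈ A, ∀ b ∈ A, a * b = b * a)
    {W : Submodule ℂ (Fin n → ℂ)} (hW : Inv A W) (h0 : W ≠ ⊥) :
    ∃ v ∈ W, v ≠ 0 ∧ v ∈ eigen A := by
  have key : ∀ (d : ℕ) (W : Submodule ℂ (Fin n → ℂ)), Inv A W → W ≠ ⊥ →
      Module.finrank ℂ W = d → ∃ v ∈ W, v ≠ 0 ∧ v ∈ eigen A := by
    intro d
    induction d using Nat.strong_induction_on with
    | _ d ih =>
      intro W hW h0 hd
      by_cases hall : ∀ a ∈ A, ∃ c : ℂ, ∀ v ∈ W, (a : Matrix (Fin n) (Fin n) ℂ) *ᵥ v = c • v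
      · obtain ⟨v, hv, hv0⟩ := (Submodule.ne_bot_iff _).1 h0
        refine ⟨v, hv, hv0, fun a ha => ?_⟩
        obtain ⟨c, hc⟩ := hall a ha
        exact ⟨c, hc v hv⟩
      · push Not at hall
        obtain ⟨a, ha, hna⟩ := hall
        have hmap : ∀ v ∈ W, (Matrix.mulVecLin (a : Matrix (Fin n) (Fin n) ℂ)) v ∈ W :=
          fun v hv => hW a ha v hv
        let r : Module.End ℂ W := (Matrix.mulVecLin (a : Matrix (Fin n) (Fin n) ℂ)).restrict hmap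
        have : Nontrivial W := (Submodule.nontrivial_iff_ne_bot).2 h0
        obtain ⟨c, hc⟩ := Module.End.exists_eigenvalue r
        obtain ⟨w, hw⟩ := hc.exists_hasEigenvector
        have hw1 : (a : Matrix (Fin n) (Fin n) ℂ) *ᵥ (w : Fin n → ℂ) = c • (w : Fin n → ℂ) := by
          have h1 := congrArg Subtype.val hw.apply_eq_smul
          exact h1
        let W' : Submodule ℂ (Fin n → ℂ) := W ⊓ LinearMap.ker
          (Matrix.mulVecLin (a : Matrix (Fin n) (Fin n) ℂ) - c • LinearMap.id)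
        have hmem : ∀ v, v ∈ W' ↔ v ∈ W ∧ (a : Matrix (Fin n) (Fin n) ℂ) *ᵥ v = c • v := by
          intro v
          simp only [W', Submodule.mem_inf, LinearMap.mem_ker, LinearMap.sub_apply,
            Matrix.mulVecLin_apply, LinearMap.smul_apply, LinearMap.id_apply, sub_eq_zero]
        have hW' : Inv A W' := by
          intro b hb v hv
          rw [hmem] at hv ⊢
          refine ⟨hW b hb v hv.1, ?_⟩
          rw [Matrix.mulVec_mulVec, ← Units.val_mul, hA a ha b hb, Units.val_mul,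
            ← Matrix.mulVec_mulVec, hv.2, Matrix.mulVec_smul]
        have h0' : W' ≠ ⊥ := by
          intro h
          have h1 : (w : Fin n → ℂ) ∈ W' := (hmem _).2 ⟨w.2, hw1⟩
          rw [h, Submodule.mem_bot] at h1
          exact hw.2 (Subtype.ext h1)
        have hlt : W' < W := by
          refine lt_of_le_of_ne inf_le_left fun h => ?_
          obtain ⟨v, hv, hne⟩ := hna c
          rw [← h, hmem] at hv
          exact hne hv.2
        obtain ⟨v, hv, h1, h2⟩ := ih _ (hd ▸ Submodule.finrank_lt_finrank_of_lt hlt) W' hW' h0' rfl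
        exact ⟨v, ((hmem v).1 hv).1, h1, h2⟩
  exact key _ W hW h0 rfl

section normal

variable {S A : Subgroup (GL (Fin n) ℂ)}

theorem eigen_map (hN : ∀ s ∈ S, ∀ a ∈ A, s * a * s⁻¹ ∈ A) {s : GL (Fin n) ℂ} (hs : s ∈ S)
    {v : Fin n → ℂ} (hv : v ∈ eigen A) : (s : Matrix (Fin n) (Fin n) ℂ) *ᵥ v ∈ eigen A := by
  intro a ha
  have h1 := hN s⁻¹ (S.inv_mem hs) a ha
  rw [inv_inv] at h1
  obtain ⟨c, hc⟩ := hv _ h1
  refine ⟨c, ?_⟩
  have h2 : (a : Matrix (Fin n) (Fin n) ℂ) *ᵥ ((s : Matrix (Fin n) (Fin n) ℂ) *ᵥ v) =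
      (s : Matrix (Fin n) (Fin n) ℂ) *ᵥ
        (((s⁻¹ * a * s : GL (Fin n) ℂ) : Matrix (Fin n) (Fin n) ℂ) *ᵥ v) := by
    rw [Matrix.mulVec_mulVec, Matrix.mulVec_mulVec, ← Units.val_mul, ← Units.val_mul]
    congr 2
    group
  rw [h2, hc, Matrix.mulVec_smul]

/-- If `S` acts semisimply and `A` is an abelian normal subgroup, every `S`-invariant subspace is
spanned by common eigenvectors of `A`. -/
theorem span_eigen (hS : Semi S) (hAS : A ≤ S) (hN : ∀ s ∈ S, ∀ a ∈ A, s * a * s⁻¹ ∈ A)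
    (hA : ∀ a ∈ A, ∀ b ∈ A, a * b = b * a) {W : Submodule ℂ (Fin n → ℂ)} (hW : Inv S W) :
    W = Submodule.span ℂ ((W : Set (Fin n → ℂ)) ∩ eigen A) := by
  set E := Submodule.span ℂ ((W : Set (Fin n → ℂ)) ∩ eigen A) with hE
  have hle : E ≤ W := Submodule.span_le.2 fun v hv => hv.1
  have hEi : Inv S E := by
    intro s hs v hv
    induction hv using Submodule.span_induction with
    | mem v hv => exact Submodule.subset_span ⟨hW s hs v hv.1, eigen_map hN hs hv.2⟩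
    | zero => rw [Matrix.mulVec_zero]; exact E.zero_mem
    | add v w _ _ h1 h2 => rw [Matrix.mulVec_add]; exact E.add_mem h1 h2
    | smul c v _ h1 => rw [Matrix.mulVec_smul]; exact E.smul_mem c h1
  obtain ⟨E', hE', hc⟩ := hS E hEi
  have h0 : W ⊓ E' = ⊥ := by
    by_contra h
    obtain ⟨v, hv, hv0, hve⟩ := exists_eigen hA
      (W := W ⊓ E') (fun a ha v hv => ⟨hW a (hAS ha) v hv.1, hE' a (hAS ha) v hv.2⟩) h
    have h1 : v ∈ E := Submodule.subset_span ⟨hv.1, hve⟩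
    exact hv0 ((Submodule.disjoint_def.1 hc.disjoint) v h1 hv.2)
  refine le_antisymm (fun w hw => ?_) hle
  have h1 : w ∈ E ⊔ E' := by rw [hc.sup_eq_top]; trivial
  obtain ⟨e, he, e', he', rfl⟩ := Submodule.mem_sup.1 h1
  have h2 : e' ∈ W ⊓ E' := by
    refine ⟨?_, he'⟩
    have h3 : e' = (e + e') - e := by abel
    rw [h3]
    exact W.sub_mem hw (hle he)
  rw [h0, Submodule.mem_bot] at h2
  rw [h2, add_zero]
  exact he

/-- The elements of `G` which preserve the lines spanned by the common eigenvectors of `A`. -/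
def scal (G A : Subgroup (GL (Fin n) ℂ)) : Subgroup (GL (Fin n) ℂ) where
  carrier := {g | g ∈ G ∧ ∀ v ∈ eigen A, ∃ c : ℂ, (g : Matrix (Fin n) (Fin n) ℂ) *ᵥ v = c • v}
  one_mem' := ⟨G.one_mem, fun v _ => ⟨1, by rw [Units.val_one, Matrix.one_mulVec, one_smul]⟩⟩
  mul_mem' := by
    rintro a b ⟨ha, ha'⟩ ⟨hb, hb'⟩
    refine ⟨G.mul_mem ha hb, fun v hv => ?_⟩
    obtain ⟨c, hc⟩ := ha' v hv
    obtain ⟨d, hd⟩ := hb' v hv
    exact ⟨c * d, by
      rw [Units.val_mul, ← Matrix.mulVec_mulVec, hd, Matrix.mulVec_smul, hc, smul_smul, mul_comm]⟩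
  inv_mem' := by
    rintro a ⟨ha, ha'⟩
    refine ⟨G.inv_mem ha, fun v hv => ?_⟩
    obtain ⟨c, hc⟩ := ha' v hv
    by_cases h0 : c = 0
    · refine ⟨0, ?_⟩
      have h1 := inv_mulVec a v
      rw [hc, h0, zero_smul, Matrix.mulVec_zero] at h1
      rw [← h1, Matrix.mulVec_zero, smul_zero]
    · refine ⟨c⁻¹, ?_⟩
      have h1 := inv_mulVec a v
      rw [hc, Matrix.mulVec_smul] at h1
      rw [← h1, smul_smul, inv_mul_cancel₀ h0, one_smul, h1]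

theorem scal_le (G A : Subgroup (GL (Fin n) ℂ)) : scal G A ≤ G := fun _ h => h.1

theorem le_scal {G A : Subgroup (GL (Fin n) ℂ)} (h : A ≤ G) : A ≤ scal G A :=
  fun a ha => ⟨h ha, fun _ hv => hv a ha⟩

theorem closed_scal {G : Subgroup (GL (Fin n) ℂ)} (hG : Closed (G : Set (GL (Fin n) ℂ)))
    (A : Subgroup (GL (Fin n) ℂ)) : Closed (scal G A : Set (GL (Fin n) ℂ)) := by
  have h1 : (scal G A : Set (GL (Fin n) ℂ)) = ⋂ o : Option (eigen A), (match o with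
      | none => (G : Set (GL (Fin n) ℂ))
      | some v => {x : GL (Fin n) ℂ | ∃ c : ℂ, (x : Matrix (Fin n) (Fin n) ℂ) *ᵥ
          (v : Fin n → ℂ) = c • (v : Fin n → ℂ)}) := by
    ext x
    rw [Set.mem_iInter]
    constructor
    · rintro ⟨h, h'⟩ (_ | v)
      · exact h
      · exact h' v v.2
    · intro h
      exact ⟨h none, fun v hv => h (some ⟨v, hv⟩)⟩
  rw [h1]
  refine closed_iInter _ ?_
  rintro (_ | v)
  · exact hG
  · exact closed_line _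

theorem scal_conj {G : Subgroup (GL (Fin n) ℂ)} (hSG : S ≤ G)
    (hN : ∀ s ∈ S, ∀ a ∈ A, s * a * s⁻¹ ∈ A) {s : GL (Fin n) ℂ} (hs : s ∈ S)
    {d : GL (Fin n) ℂ} (hd : d ∈ scal G A) : s * d * s⁻¹ ∈ scal G A := by
  refine ⟨G.mul_mem (G.mul_mem (hSG hs) hd.1) (G.inv_mem (hSG hs)), fun v hv => ?_⟩
  obtain ⟨c, hc⟩ := hd.2 _ (eigen_map hN (S.inv_mem hs) hv)
  refine ⟨c, ?_⟩
  rw [Units.val_mul, Units.val_mul, ← Matrix.mulVec_mulVec, ← Matrix.mulVec_mulVec, hc,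
    Matrix.mulVec_smul, mulVec_inv]

/-- The group generated by `S` and `scal G A`. -/
def big (G S A : Subgroup (GL (Fin n) ℂ)) (hSG : S ≤ G)
    (hN : ∀ s ∈ S, ∀ a ∈ A, s * a * s⁻¹ ∈ A) : Subgroup (GL (Fin n) ℂ) where
  carrier := {x | ∃ d ∈ scal G A, ∃ s ∈ S, x = d * s}
  one_mem' := ⟨1, (scal G A).one_mem, 1, S.one_mem, (mul_one 1).symm⟩
  mul_mem' := by
    rintro _ _ ⟨d, hd, s, hs, rfl⟩ ⟨d', hd', s', hs', rfl⟩
    refine ⟨d * (s * d' * s⁻¹), (scal G A).mul_mem hd (scal_conj hSG hN hs hd'), s * s',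
      S.mul_mem hs hs', by group⟩
  inv_mem' := by
    rintro _ ⟨d, hd, s, hs, rfl⟩
    have h1 := scal_conj hSG hN (S.inv_mem hs) ((scal G A).inv_mem hd)
    exact ⟨_, h1, s⁻¹, S.inv_mem hs, by group⟩

theorem diagonal_scal {G : Subgroup (GL (Fin n) ℂ)} (hS : Semi S) (hAS : A ≤ S)
    (hN : ∀ s ∈ S, ∀ a ∈ A, s * a * s⁻¹ ∈ A) (hA : ∀ a ∈ A, ∀ b ∈ A, a * b = b * a) :
    Diagonal (scal G A) := by
  have h1 := span_eigen hS hAS hN hA (W := ⊤) (fun _ _ _ _ => Submodule.mem_top)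
  rw [Submodule.top_coe, Set.univ_inter] at h1
  let b := Module.Basis.ofSpan h1.le
  have hb : ∀ i, b i ∈ eigen A := by
    intro i
    exact Module.Basis.ofSpan_subset h1.le ⟨i, rfl⟩
  refine ⟨b.reindex (b.indexEquiv (Pi.basisFun ℂ (Fin n))), fun g hg i => ?_⟩
  rw [Module.Basis.reindex_apply]
  exact hg.2 _ (hb _)

theorem semi_big {G : Subgroup (GL (Fin n) ℂ)} (hS : Semi S) (hSG : S ≤ G) (hAS : A ≤ S)
    (hN : ∀ s ∈ S, ∀ a ∈ A, s * a * s⁻¹ ∈ A) (hA : ∀ a ∈ A, ∀ b ∈ A, a * b = b * a) :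
    Semi (big G S A hSG hN) := by
  intro U hU
  obtain ⟨W, hW, hc⟩ := hS U fun s hs => hU s ⟨1, (scal G A).one_mem, s, hs, (one_mul s).symm⟩
  refine ⟨W, ?_, hc⟩
  rintro _ ⟨d, hd, s, hs, rfl⟩ v hv
  rw [Units.val_mul, ← Matrix.mulVec_mulVec]
  have h1 := hW s hs v hv
  have h2 := span_eigen hS hAS hN hA hW
  rw [h2] at h1 ⊢
  generalize (s : Matrix (Fin n) (Fin n) ℂ) *ᵥ v = w at h1
  induction h1 using Submodule.span_induction with
  | mem w hw =>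
    obtain ⟨c, hc'⟩ := hd.2 w hw.2
    rw [hc']
    exact Submodule.smul_mem _ c (Submodule.subset_span hw)
  | zero => rw [Matrix.mulVec_zero]; exact Submodule.zero_mem _
  | add v w _ _ h1 h2 => rw [Matrix.mulVec_add]; exact Submodule.add_mem _ h1 h2
  | smul c v _ h1 => rw [Matrix.mulVec_smul]; exact Submodule.smul_mem _ c h1

theorem mem_big {G : Subgroup (GL (Fin n) ℂ)} {hSG : S ≤ G} (hAS : A ≤ S)
    {hN : ∀ s ∈ S, ∀ a ∈ A, s * a * s⁻¹ ∈ A} {T : Finset (GL (Fin n) ℂ)}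
    (hT : ∀ t ∈ T, t ∈ S) (hTc : ∀ s ∈ S, ∃ t ∈ T, s * t⁻¹ ∈ A) (x : GL (Fin n) ℂ) :
    x ∈ big G S A hSG hN ↔ ∃ t ∈ T, x * t⁻¹ ∈ scal G A := by
  constructor
  · rintro ⟨d, hd, s, hs, rfl⟩
    obtain ⟨t, ht, h⟩ := hTc s hs
    refine ⟨t, ht, ?_⟩
    rw [mul_assoc]
    exact (scal G A).mul_mem hd (le_scal (hAS.trans hSG) h)
  · rintro ⟨t, ht, h⟩
    exact ⟨_, h, t, hT t ht, by group⟩

theorem closed_big {G : Subgroup (GL (Fin n) ℂ)} (hG : Closed (G : Set (GL (Fin n) ℂ)))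
    (hSG : S ≤ G) (hAS : A ≤ S) (hN : ∀ s ∈ S, ∀ a ∈ A, s * a * s⁻¹ ∈ A)
    {T : Finset (GL (Fin n) ℂ)} (hT : ∀ t ∈ T, t ∈ S) (hTc : ∀ s ∈ S, ∃ t ∈ T, s * t⁻¹ ∈ A) :
    Closed (big G S A hSG hN : Set (GL (Fin n) ℂ)) := by
  have h1 : (big G S A hSG hN : Set (GL (Fin n) ℂ)) =
      ⋃ t ∈ T, {x | 1 * x * t⁻¹ ∈ (scal G A : Set (GL (Fin n) ℂ))} := by
    ext x
    rw [SetLike.mem_coe, mem_big hAS hT hTc]
    simp
  rw [h1]
  exact closed_biUnion T _ fun t _ => (closed_scal hG A).translate 1 t⁻¹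

theorem relIndex_big {G : Subgroup (GL (Fin n) ℂ)} (hSG : S ≤ G) (hAS : A ≤ S)
    (hN : ∀ s ∈ S, ∀ a ∈ A, s * a * s⁻¹ ∈ A) {T : Finset (GL (Fin n) ℂ)}
    (hT : ∀ t ∈ T, t ∈ S) (hTc : ∀ s ∈ S, ∃ t ∈ T, s * t⁻¹ ∈ A) :
    (scal G A).relIndex (big G S A hSG hN) ≠ 0 := by
  have hTb : ∀ t ∈ T, t ∈ big G S A hSG hN := fun t ht =>
    (mem_big hAS hT hTc t).2 ⟨t, ht, by rw [mul_inv_cancel]; exact (scal G A).one_mem⟩
  let f : T → (big G S A hSG hN) ⧸ (scal G A).subgroupOf (big G S A hSG hN) := fun t =>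
    ((⟨(t : GL (Fin n) ℂ)⁻¹, (big G S A hSG hN).inv_mem (hTb t t.2)⟩ : big G S A hSG hN) : _ ⧸ _)
  have hf : Function.Surjective f := by
    intro q
    induction q using QuotientGroup.induction_on with
    | H x =>
      obtain ⟨t, ht, h⟩ := (mem_big hAS hT hTc _).1 ((big G S A hSG hN).inv_mem x.2)
      refine ⟨⟨t, ht⟩, ?_⟩
      rw [QuotientGroup.eq, Subgroup.mem_subgroupOf]
      have h2 : (((⟨(t : GL (Fin n) ℂ)⁻¹, (big G S A hSG hN).inv_mem (hTb t ht)⟩ :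
          big G S A hSG hN)⁻¹ * x : big G S A hSG hN) : GL (Fin n) ℂ) =
          ((x : GL (Fin n) ℂ)⁻¹ * t⁻¹)⁻¹ := by
        rw [Subgroup.coe_mul, Subgroup.coe_inv]
        group
      rw [h2]
      exact (scal G A).inv_mem h
  have := Finite.of_surjective f hf
  exact Subgroup.index_ne_zero_of_finite

/-- A semisimple representation with virtually abelian image is a representation in a reductive
group whose identity component is a torus. -/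
theorem exists_torusByFinite {Γ : Type} [Group Γ] (G : Red n) (ρ : Γ →* GL (Fin n) ℂ)
    (hG : ∀ γ, ρ γ ∈ G.pts) (hρ : Semi ρ.range) (B : Subgroup Γ) (hB : B.index ≠ 0)
    (hc : ∀ a ∈ B, ∀ b ∈ B, ρ a * ρ b = ρ b * ρ a) :
    ∃ N : Red n, N.pts ≤ G.pts ∧ (∀ γ, ρ γ ∈ N.pts) ∧ TorusByFinite N.pts := by
  classical
  have : B.FiniteIndex := ⟨hB⟩
  set K := B.normalCore with hK
  have : K.FiniteIndex := Subgroup.finiteIndex_normalCore B
  have : Finite (Γ ⧸ K) := inferInstance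
  have := Fintype.ofFinite (Γ ⧸ K)
  set A : Subgroup (GL (Fin n) ℂ) := K.map ρ with hAdef
  set S : Subgroup (GL (Fin n) ℂ) := ρ.range with hSdef
  have hSG : S ≤ G.pts := by
    rintro _ ⟨γ, rfl⟩
    exact hG γ
  have hAS : A ≤ S := by
    rintro _ ⟨γ, _, rfl⟩
    exact ⟨γ, rfl⟩
  have hN : ∀ s ∈ S, ∀ a ∈ A, s * a * s⁻¹ ∈ A := by
    rintro _ ⟨γ, rfl⟩ _ ⟨κ, hκ, rfl⟩
    exact ⟨γ * κ * γ⁻¹, (Subgroup.normalCore_normal B).conj_mem κ hκ γ, by
      rw [map_mul, map_mul, map_inv]⟩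
  have hA : ∀ a ∈ A, ∀ b ∈ A, a * b = b * a := by
    rintro _ ⟨κ, hκ, rfl⟩ _ ⟨κ', hκ', rfl⟩
    exact hc κ (Subgroup.normalCore_le B hκ) κ' (Subgroup.normalCore_le B hκ')
  let T : Finset (GL (Fin n) ℂ) := Finset.univ.image fun q : Γ ⧸ K => (ρ q.out)⁻¹
  have hT : ∀ t ∈ T, t ∈ S := by
    intro t ht
    obtain ⟨q, _, rfl⟩ := Finset.mem_image.1 ht
    exact S.inv_mem ⟨_, rfl⟩
  have hTc : ∀ s ∈ S, ∃ t ∈ T, s * t⁻¹ ∈ A := by
    rintro _ ⟨γ, rfl⟩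
    refine ⟨_, Finset.mem_image_of_mem _ (Finset.mem_univ ((γ⁻¹ : Γ) : Γ ⧸ K)), ?_⟩
    have h1 : (((γ⁻¹ : Γ) : Γ ⧸ K).out)⁻¹ * γ⁻¹ ∈ K := by
      rw [← QuotientGroup.eq, QuotientGroup.out_eq']
    have h2 := K.inv_mem h1
    rw [_root_.mul_inv_rev, inv_inv, inv_inv] at h2
    refine ⟨_, h2, ?_⟩
    rw [map_mul, inv_inv]
  refine ⟨⟨big G.pts S A hSG hN, closed_big G.closed hSG hAS hN hT hTc,
    semi_big hρ hSG hAS hN hA⟩, ?_, ?_, ?_⟩
  · rintro _ ⟨d, hd, s, hs, rfl⟩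
    exact G.pts.mul_mem hd.1 (hSG hs)
  · exact fun γ => ⟨1, (scal G.pts A).one_mem, ρ γ, ⟨γ, rfl⟩, (one_mul _).symm⟩
  · exact ⟨scal G.pts A, fun d hd => ⟨d, hd, 1, S.one_mem, (mul_one d).symm⟩,
      diagonal_scal hρ hAS hN hA, relIndex_big hSG hAS hN hT hTc⟩

end normal

end Pool.Agent.H88.PA
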