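import Pool.Agent.H88.PA.Eig
import Pool.Agent.H88.PW.Fil

/-!
# Components with Zariski dense representations suffice
-/

set_option autoImplicit false

open Matrix

namespace Pool.Agent.H88.PA

open Pool.Agent.H88.PW

variable {n : ℕ}

theorem TorusByFinite.mono {H N : Subgroup (GL (Fin n) ℂ)} (h : H ≤ N) (hN : TorusByFinite N) :
    TorusByFinite H := by
  obtain ⟨D, hD, ⟨b, hb⟩, hi⟩ := hN
  refine ⟨D ⊓ H, inf_le_right, ⟨b, fun g hg => hb g hg.1⟩, ?_⟩
  rw [Subgroup.inf_relIndex_right]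
  exact fun h0 => hi (Subgroup.relIndex_eq_zero_of_le_right h h0)

/-- A property of spaces with two filtrations which passes to direct summands and holds for the
tori. -/
structure Stable (p : Bif → Prop) : Prop where
  summand : ∀ A C : Bif, A.IsSummand C → p C → p A
  toric : ∀ d, p (toric d)

theorem toric_q1 (d : ℕ) : (toric d).Q1 := by
  intro k
  refine le_antisymm (fun f hf S h => ?_) ((toric d).monoW (by omega))
  have h1 : 2 * (S.card : ℤ) ≤ 2 * k + 1 := hf S h
  show 2 * (S.card : ℤ) ≤ 2 * k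
  omega

theorem toric_q2 (d : ℕ) : (toric d).Q2 := by
  intro k
  refine le_antisymm (fun f hf S h => ?_) (fun f hf S h => ?_)
  · have h1 : 2 * (S.card : ℤ) ≤ 2 * k := hf S h
    show (S.card : ℤ) ≤ k
    omega
  · have h1 : (S.card : ℤ) ≤ k := hf S h
    show 2 * (S.card : ℤ) ≤ 2 * k
    omega

theorem stable_q1 : Stable Bif.Q1 := ⟨fun _ _ h hC => h.q1 hC, toric_q1⟩

theorem stable_q2 : Stable Bif.Q2 := by
  refine ⟨fun A C h hC => ?_, toric_q2⟩
  obtain ⟨i, r, hir, h⟩ := h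
  intro k
  refine le_antisymm (fun x hx => ?_) (fun x hx => ?_)
  · have h1 := (h _).1 x hx
    rw [hC k] at h1
    rw [← hir x]
    exact (h _).2.2.2 _ h1
  · have h1 := (h _).2.1 x hx
    rw [← hC k] at h1
    rw [← hir x]
    exact (h _).2.2.1 _ h1

theorem stable_oddInP : Stable Bif.OddInP := by
  refine ⟨fun _ _ h hC => h.oddInP hC, fun d => ?_⟩
  exact (Bif.both_iff.1 ⟨toric_q1 d, toric_q2 d⟩).1

theorem stable_pinW : Stable (Bif.PinW 0) := by
  refine ⟨fun _ _ h hC => h.pinW hC, fun d => ?_⟩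
  exact (Bif.both_iff.1 ⟨toric_q1 d, toric_q2 d⟩).2

/-- The representation is Zariski dense in the group. -/
def Dense {Γ : Type} [Group Γ] (N : Red n) (ρ : Γ →* GL (Fin n) ℂ) : Prop :=
  ∀ Z : Set (GL (Fin n) ℂ), Closed Z → (∀ γ, ρ γ ∈ Z) → (N.pts : Set (GL (Fin n) ℂ)) ⊆ Z

variable (T : Theory)

/-- **Dense components suffice.** -/
theorem of_dense {p : Bif → Prop} (hp : Stable p) (X : T.Var) (G : Red n)
    (h : ∀ N : Red n, N.pts ≤ G.pts → ¬ TorusByFinite N.pts → ∀ Y : T.Comp X N,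
      (∃ ρ, T.On Y ρ ∧ Dense N ρ) → p (T.coh Y)) : ∀ Y : T.Comp X G, p (T.coh Y) := by
  have key : ∀ S : Set (GL (Fin n) ℂ), Closed S → ∀ N : Red n, (N.pts : Set _) = S →
      N.pts ≤ G.pts → ∀ Y : T.Comp X N, p (T.coh Y) := by
    refine closed_induction fun S hS ih N hNS hNG Y => ?_
    by_cases ht : TorusByFinite N.pts
    · obtain ⟨d, hd⟩ := T.torus ht Y
      exact hp.summand _ _ hd (hp.toric d)
    by_cases hd : ∃ ρ, T.On Y ρ ∧ Dense N ρ
    · exact h N hNG ht Y hd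
    push Not at hd
    obtain ⟨F, hFN, hF⟩ := T.countable N
    obtain ⟨i, Y', hY'⟩ := T.dominated Y {i : ℕ // (F i).pts < N.pts} (fun i => F i)
      (fun i => hFN i) (by
        intro ρ hρ
        obtain ⟨h1, h2⟩ := T.semi Y ρ hρ
        have h3 : (hull ρ.range h2).pts ≤ N.pts := hull_le _ _ N (by
          rintro _ ⟨γ, rfl⟩
          exact h1 γ)
        have h4 : (hull ρ.range h2).pts ≠ N.pts := by
          intro h4
          refine hd ρ hρ fun Z hZ hρZ => ?_
          rw [← h4]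
          exact zcl_subset hZ (by
            rintro _ ⟨γ, rfl⟩
            exact hρZ γ)
        obtain ⟨i, g, hg, hi⟩ := hF _ h3
        refine ⟨⟨i, lt_of_le_of_ne (hFN i) fun h5 => h4 ?_⟩, g, hg, fun γ => ?_⟩
        · refine le_antisymm h3 fun x hx => ?_
          have h6 : g * x * g⁻¹ ∈ (F i).pts := by
            rw [h5]
            exact N.pts.mul_mem (N.pts.mul_mem hg hx) (N.pts.inv_mem hg)
          rw [← hi] at h6
          obtain ⟨y, hy, hyx⟩ := h6
          have h7 : g * y * g⁻¹ = g * x * g⁻¹ := hyx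
          have h8 : y = x := by simpa using h7
          rw [← h8]
          exact hy
        · rw [← hi]
          exact ⟨ρ γ, le_hull _ _ ⟨γ, rfl⟩, rfl⟩)
    refine hp.summand _ _ hY' (ih ((F i).pts : Set _) (F i).closed ?_ (F i) rfl
      ((hFN i).trans hNG) Y')
    rw [← hNS]
    exact SetLike.coe_ssubset_coe.2 i.2
  exact key (G.pts : Set _) G.closed G rfl le_rfl

/-- **Representations with virtually abelian image.** -/
theorem of_virtuallyAbelian {p : Bif → Prop} (hp : Stable p) (X : T.Var) (G : Red n)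
    (h : ∀ ρ : T.grp X →* GL (Fin n) ℂ, (∀ γ, ρ γ ∈ G.pts) → Semi ρ.range →
      ∃ B : Subgroup (T.grp X), B.index ≠ 0 ∧ ∀ a ∈ B, ∀ b ∈ B, ρ a * ρ b = ρ b * ρ a) :
    ∀ Y : T.Comp X G, p (T.coh Y) := by
  refine of_dense T hp X G fun N hNG hN Y hY => ?_
  obtain ⟨ρ, hρ, hd⟩ := hY
  obtain ⟨h1, h2⟩ := T.semi Y ρ hρ
  obtain ⟨B, hB, hc⟩ := h ρ (fun γ => hNG (h1 γ)) h2
  obtain ⟨N', hN', hρ', ht⟩ := exists_torusByFinite N ρ h1 h2 B hB hc
  exact absurd (ht.mono (hd _ N'.closed hρ')) hN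

end Pool.Agent.H88.PA
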